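import Pool.Agent.W426.LE.Stm3

/-!
# Part LE-AUT: graphs with an automorphism with two orbits of size `p ^ k`
-/

set_option autoImplicit false

namespace Pool.Agent.W975.LE

open Finset Pool.Agent.W426.LE Pool.Agent.W426.LE.EL
open scoped Classical

theorem main : S_AUT := by
  intro p k hp hp2 hk V _ H σ a b t hcard hσ hσn horb hSa hRb hSc hRc hTc ht1 htp
  haveI : Fact p.Prime := ⟨hp⟩
  have hn0 : NeZero (p ^ k) := ⟨pow_ne_zero _ hp.ne_zero⟩
  have hpw_nat : ∀ i : ℕ, σ ^ (i % (p ^ k)) = σ ^ i := by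
    intro i
    conv_rhs => rw [← Nat.div_add_mod i (p ^ k), pow_add, pow_mul, hσn, one_pow, one_mul]
  set pw : ZMod (p ^ k) → Equiv.Perm V := fun x => σ ^ x.val with hpw
  have hadd : ∀ x y, pw (x + y) = pw x * pw y := by
    intro x y
    simp only [hpw]
    rw [ZMod.val_add, hpw_nat, pow_add]
  have hcast : ∀ i : ℕ, pw (i : ZMod (p ^ k)) = σ ^ i := by
    intro i
    simp only [hpw]
    rw [ZMod.val_natCast, hpw_nat]
  have hadj_nat : ∀ (i : ℕ) (u v : V), H.Adj ((σ ^ i) u) ((σ ^ i) v) ↔ H.Adj u v := by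
    intro i
    induction i with
    | zero => intro u v; simp
    | succ i ih =>
      intro u v
      rw [pow_succ', Equiv.Perm.mul_apply, Equiv.Perm.mul_apply, hσ, ih]
  have hadj : ∀ (x y : ZMod (p ^ k)) (u v : V), H.Adj (pw x u) (pw y v) ↔ H.Adj u (pw (y - x) v) := by
    intro x y u v
    have h1 : pw y = pw x * pw (y - x) := by rw [← hadd]; congr 1; ring
    rw [h1, Equiv.Perm.mul_apply]
    exact hadj_nat _ _ _
  have hzero : pw 0 = 1 := by simp [hpw]
  set F : ZMod (p ^ k) × Bool → V := fun q => if q.2 then pw q.1 b else pw q.1 a with hF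
  have hsurj : Function.Surjective F := by
    intro v
    obtain ⟨i, hi | hi⟩ := horb v
    · exact ⟨((i : ZMod (p ^ k)), false), by simp [hF, hcast, hi]⟩
    · exact ⟨((i : ZMod (p ^ k)), true), by simp [hF, hcast, hi]⟩
  have hbij : Function.Bijective F := by
    rw [Fintype.bijective_iff_surjective_and_card]
    refine ⟨hsurj, ?_⟩
    rw [Fintype.card_prod, ZMod.card, Fintype.card_bool, hcard, mul_comm]
  -- the connection sets
  have hset : ∀ u v : V, ((univ : Finset (ZMod (p ^ k))).filter (fun x => H.Adj u (pw x v))).card =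
      ((range (p ^ k)).filter (fun i => H.Adj u ((σ ^ i) v))).card := by
    intro u v
    refine Finset.card_bij (fun x _ => x.val) ?_ ?_ ?_
    · intro x hx
      rw [mem_filter] at hx ⊢
      exact ⟨mem_range.2 (ZMod.val_lt x), hx.2⟩
    · intro x _ y _ h
      exact ZMod.val_injective _ h
    · intro i hi
      rw [mem_filter, mem_range] at hi
      refine ⟨(i : ZMod (p ^ k)), ?_, ?_⟩
      · rw [mem_filter]
        refine ⟨mem_univ _, ?_⟩
        rw [hcast]; exact hi.2
      · rw [ZMod.val_natCast, Nat.mod_eq_of_lt hi.1]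
  set S := (univ : Finset (ZMod (p ^ k))).filter (fun x => H.Adj a (pw x a)) with hS
  set R := (univ : Finset (ZMod (p ^ k))).filter (fun x => H.Adj b (pw x b)) with hR
  set T := (univ : Finset (ZMod (p ^ k))).filter (fun x => H.Adj a (pw x b)) with hT
  have hsym : ∀ (u : V) (x : ZMod (p ^ k)), H.Adj u (pw x u) → H.Adj u (pw (-x) u) := by
    intro u x h
    have h1 : H.Adj (pw x u) (pw 0 u) := by
      rw [hzero]; exact h.symm
    rw [hadj, zero_sub] at h1
    exact h1
  have hnz : ∀ x : ZMod (p ^ k), ZMod.castHom (dvd_pow_self p hk) (ZMod p) x = 0 → p ∣ x.val := by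
    intro x hx
    rw [ZMod.castHom_apply, ← ZMod.natCast_val] at hx
    exact (ZMod.natCast_eq_zero_iff _ _).1 hx
  have h2 := hp.two_le
  have hTt : T.card = t := (hset a b).trans hTc
  have hG := sGBE p k hp2 hk S R T
    (fun x hx => by
      rw [hS, mem_filter] at hx ⊢
      exact ⟨mem_univ _, hsym a x hx.2⟩)
    (fun x hx => by
      rw [hR, mem_filter] at hx ⊢
      exact ⟨mem_univ _, hsym b x hx.2⟩)
    (by rw [hset a a, hSc]; omega) (by rw [hset b b, hRc]; omega)
    (fun x hx h => by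
      rw [hS, mem_filter] at hx
      exact hSa _ hx.2 (hnz x h))
    (fun x hx h => by
      rw [hR, mem_filter] at hx
      exact hRb _ hx.2 (hnz x h))
    (by rw [← Finset.card_pos, hTt]; omega) (by rw [hTt]; omega)
  rw [hTt] at hG
  set e := Equiv.ofBijective F hbij with he
  refine mono H (BC (p ^ k) S R T) e.symm e.symm.injective ?_ _ hG
  intro u v huv
  obtain ⟨q, rfl⟩ := e.surjective u
  obtain ⟨q', rfl⟩ := e.surjective v
  rw [Equiv.symm_apply_apply, Equiv.symm_apply_apply]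
  have hne : q ≠ q' := fun h => H.loopless.irrefl _ (h ▸ huv)
  unfold BC
  rw [SimpleGraph.fromRel_adj]
  refine ⟨hne, ?_⟩
  obtain ⟨x, c⟩ := q
  obtain ⟨y, d⟩ := q'
  have huv' : H.Adj (F (x, c)) (F (y, d)) := huv
  cases c <;> cases d <;> simp only [hF, if_true, Bool.false_eq_true, if_false] at huv'
  · refine Or.inl (Or.inl ⟨rfl, rfl, ?_⟩)
    rw [hS, mem_filter]
    exact ⟨mem_univ _, (hadj _ _ _ _).1 huv'⟩
  · refine Or.inl (Or.inr (Or.inr ⟨rfl, rfl, ?_⟩))
    rw [hT, mem_filter]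
    exact ⟨mem_univ _, (hadj _ _ _ _).1 huv'⟩
  · refine Or.inr (Or.inr (Or.inr ⟨rfl, rfl, ?_⟩))
    rw [hT, mem_filter]
    exact ⟨mem_univ _, (hadj _ _ _ _).1 huv'.symm⟩
  · refine Or.inl (Or.inr (Or.inl ⟨rfl, rfl, ?_⟩))
    rw [hR, mem_filter]
    exact ⟨mem_univ _, (hadj _ _ _ _).1 huv'⟩

end Pool.Agent.W975.LE
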